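import Mathlib
import Pool.Agent.H110R3.Urn.Stmts

set_option autoImplicit false

namespace Pool.Agent.H992R3.Urn

open Pool.Agent.H110R3.Urn

theorem taskN0 : TaskN0 := by
  intro ι _ p d hp hsum hd
  have h1 : ∀ i, p i * Real.exp (-(d i)) ≤ p i - p i * d i + p i * (d i) ^ 2 := by
    intro i
    have h2 : |(-(d i))| ≤ 1 := by rw [abs_neg]; exact hd i
    have h3 := Real.abs_exp_sub_one_sub_id_le h2
    have h4 := (abs_le.1 h3).2
    have h5 : Real.exp (-(d i)) ≤ 1 - d i + (d i) ^ 2 := by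
      have : (-(d i)) ^ 2 = (d i) ^ 2 := by ring
      rw [this] at h4
      linarith
    have := mul_le_mul_of_nonneg_left h5 (hp i)
    calc p i * Real.exp (-(d i)) ≤ p i * (1 - d i + (d i) ^ 2) := this
      _ = p i - p i * d i + p i * (d i) ^ 2 := by ring
  calc ∑ i, p i * Real.exp (-(d i)) ≤ ∑ i, (p i - p i * d i + p i * (d i) ^ 2) :=
        Finset.sum_le_sum fun i _ => h1 i
    _ = 1 - ∑ i, p i * d i + ∑ i, p i * (d i) ^ 2 := by
        rw [Finset.sum_add_distrib, Finset.sum_sub_distrib, hsum]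

end Pool.Agent.H992R3.Urn
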