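import Mathlib
import Pool.Agent.H110R3.Urn.Stmts

set_option autoImplicit false

namespace Pool.Agent.H992R3.Urn

open Pool.Agent.H110R3.Urn Filter Topology Finset

theorem taskN2b : TaskN2b := by
  intro c N K hc hN hK
  set e0 : ℝ := 1 - Real.exp (-(c / (4 * N))) with he0
  have hN0 : 0 < N := by linarith
  have he0pos : 0 < e0 := by
    have : Real.exp (-(c / (4 * N))) < 1 := by
      rw [Real.exp_lt_one_iff]
      have : 0 < c / (4 * N) := by positivity
      linarith
    linarith
  have he0lt : e0 < 1 := by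
    have := Real.exp_pos (-(c / (4 * N)))
    linarith
  refine ⟨e0 / 4, 1, by linarith, one_pos, ?_⟩
  intro T hT a d e q r hr ha0 hapos hdpos hre hq hstep
  have hT0 : 0 < T := by linarith
  have hS : ∀ k : ℕ, 0 < T + k * N := fun k => by positivity
  by_contra hcon
  push Not at hcon
  -- monotonicity
  have hterm : ∀ k : ℕ, 0 ≤ c * T / (T + k * N) * e k := by
    intro k
    have h1 : 0 ≤ e k := (mul_nonneg hr.le (hdpos k)).trans (hre k)
    have := hS k
    positivity
  have hterm2 : ∀ k : ℕ, 0 ≤ c * T / (T + k * N) ^ 2 * a k := by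
    intro k
    have := hS k
    have := hapos k
    positivity
  have hanti : ∀ k, a (k + 1) ≤ a k := by
    intro k
    have := hstep k
    have := hterm k
    have := hterm2 k
    linarith
  have hantitone : Antitone a := antitone_nat_of_succ_le hanti
  -- first stage
  set k0 : ℕ := ⌈T / N⌉₊ with hk0
  have hk0ge : T / N ≤ k0 := Nat.le_ceil _
  have hfirst : ∀ k, k ≤ k0 → a k ≤ Real.exp (-(c / (4 * T) * k)) := by
    intro k
    induction k with
    | zero => intro _; simpa using ha0
    | succ k ih =>
      intro hk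
      have hk' : k < k0 := by omega
      have h1 := ih hk'.le
      have h2 : (k : ℝ) < T / N := Nat.lt_ceil.1 hk'
      have h3 : (k : ℝ) * N < T := by rwa [lt_div_iff₀ hN0] at h2
      have h4 : T + k * N ≤ 2 * T := by linarith
      have h5 : c / (4 * T) ≤ c * T / (T + k * N) ^ 2 := by
        rw [div_le_div_iff₀ (by positivity) (by have := hS k; positivity)]
        have h6 : (T + k * N) ^ 2 ≤ (2 * T) ^ 2 := pow_le_pow_left₀ (hS k).le h4 2
        calc c * (T + k * N) ^ 2 ≤ c * (2 * T) ^ 2 := mul_le_mul_of_nonneg_left h6 hc.le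
          _ = c * T * (4 * T) := by ring
      have h7 : a (k + 1) ≤ a k * (1 - c / (4 * T)) := by
        have h8 := hstep k
        have h9 := hterm k
        have h10 : c / (4 * T) * a k ≤ c * T / (T + k * N) ^ 2 * a k :=
          mul_le_mul_of_nonneg_right h5 (hapos k)
        nlinarith
      have h11 : 1 - c / (4 * T) ≤ Real.exp (-(c / (4 * T))) := by
        have := Real.add_one_le_exp (-(c / (4 * T)))
        linarith
      calc a (k + 1) ≤ a k * (1 - c / (4 * T)) := h7
        _ ≤ a k * Real.exp (-(c / (4 * T))) := mul_le_mul_of_nonneg_left h11 (hapos k)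
        _ ≤ Real.exp (-(c / (4 * T) * k)) * Real.exp (-(c / (4 * T))) :=
            mul_le_mul_of_nonneg_right h1 (Real.exp_pos _).le
        _ = Real.exp (-(c / (4 * T) * ((k + 1 : ℕ) : ℝ))) := by
            rw [← Real.exp_add]
            congr 1
            push_cast
            ring
  have hak0 : a k0 ≤ 1 - e0 := by
    have h1 := hfirst k0 le_rfl
    have h2 : Real.exp (-(c / (4 * T) * k0)) ≤ Real.exp (-(c / (4 * N))) := by
      rw [Real.exp_le_exp, neg_le_neg_iff]
      calc c / (4 * N) = c / (4 * T) * (T / N) := by field_simp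
        _ ≤ c / (4 * T) * k0 := mul_le_mul_of_nonneg_left hk0ge (by positivity)
    rw [he0]
    linarith
  -- second stage: `d` is bounded below
  set η : ℝ := e0 / (2 * K * T) with hη
  have hηpos : 0 < η := by positivity
  have hd : ∀ k, k0 ≤ k → η ≤ d k := by
    intro k hk
    have h1 : a k ≤ 1 - e0 := (hantitone hk).trans hak0
    have h2 := hcon k
    have h3 : (1 - e0 / 4) ^ 2 ≤ (q k) ^ 2 := pow_le_pow_left₀ (by linarith) h2.le 2
    have h4 := hq k
    have h5 : e0 / 2 ≤ K * T * d k := by nlinarith
    rw [hη, div_le_iff₀ (by positivity)]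
    linarith
  -- telescoping
  have htel : ∀ n : ℕ, a (k0 + n) ≤ a k0 - ∑ j ∈ range n, c * T * r * η / (T + ((k0 + j : ℕ) : ℝ) * N) := by
    intro n
    induction n with
    | zero => simp
    | succ n ih =>
      rw [Finset.sum_range_succ]
      have h1 := hstep (k0 + n)
      have h2 := hterm2 (k0 + n)
      have h3 : c * T * r * η / (T + ((k0 + n : ℕ) : ℝ) * N) ≤
          c * T / (T + ((k0 + n : ℕ) : ℝ) * N) * e (k0 + n) := by
        have h4 : r * η ≤ e (k0 + n) :=
          (mul_le_mul_of_nonneg_left (hd (k0 + n) (by omega)) hr.le).trans (hre _)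
        have h5 : 0 ≤ c * T / (T + ((k0 + n : ℕ) : ℝ) * N) := by
          have := hS (k0 + n)
          positivity
        calc c * T * r * η / (T + ((k0 + n : ℕ) : ℝ) * N)
            = c * T / (T + ((k0 + n : ℕ) : ℝ) * N) * (r * η) := by ring
          _ ≤ _ := mul_le_mul_of_nonneg_left h4 h5
      have e1 : k0 + (n + 1) = (k0 + n) + 1 := by omega
      rw [e1]
      linarith
  set B : ℝ := T + k0 * N + N with hB
  have hBpos : 0 < B := by positivity
  have hbound : ∀ n : ℕ, (∑ j ∈ range n, 1 / ((j : ℝ) + 1)) ≤ B / (c * T * r * η) := by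
    intro n
    have h1 := htel n
    have h2 := hapos (k0 + n)
    have h3 : a k0 ≤ 1 := by linarith
    have h4 : ∑ j ∈ range n, c * T * r * η / (T + ((k0 + j : ℕ) : ℝ) * N) ≤ 1 := by linarith
    have h5 : ∀ j ∈ range n, c * T * r * η / B * (1 / ((j : ℝ) + 1)) ≤
        c * T * r * η / (T + ((k0 + j : ℕ) : ℝ) * N) := by
      intro j _
      have h6 : T + ((k0 + j : ℕ) : ℝ) * N ≤ B * ((j : ℝ) + 1) := by
        rw [hB]
        push_cast
        have hj : (0 : ℝ) ≤ j := Nat.cast_nonneg j
        have : 0 ≤ (T + k0 * N) * (j : ℝ) := by positivity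
        nlinarith
      have h7 := hS (k0 + j)
      calc c * T * r * η / B * (1 / ((j : ℝ) + 1)) = c * T * r * η / (B * ((j : ℝ) + 1)) := by
            field_simp
        _ ≤ c * T * r * η / (T + ((k0 + j : ℕ) : ℝ) * N) :=
            div_le_div_of_nonneg_left (by positivity) h7 h6
    have h8 := Finset.sum_le_sum h5
    rw [← Finset.mul_sum] at h8
    have h9 : c * T * r * η / B * (∑ j ∈ range n, 1 / ((j : ℝ) + 1)) ≤ 1 := h8.trans h4
    have hX : 0 < c * T * r * η := by positivity
    rw [le_div_iff₀ hX]
    have h10 : c * T * r * η / B * (∑ j ∈ range n, 1 / ((j : ℝ) + 1)) =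
        ((∑ j ∈ range n, 1 / ((j : ℝ) + 1)) * (c * T * r * η)) / B := by ring
    rw [h10, div_le_one hBpos] at h9
    exact h9
  have hdiv := Real.tendsto_sum_range_one_div_nat_succ_atTop
  obtain ⟨n, hn⟩ := (hdiv.eventually (eventually_gt_atTop (B / (c * T * r * η)))).exists
  have := hbound n
  linarith

end Pool.Agent.H992R3.Urn
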