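import Mathlib
import Pool.Agent.H110R3.Urn.Stmts

set_option autoImplicit false

namespace Pool.Agent.H992R3.Urn

open Pool.Agent.H110R3.Urn Filter Topology Finset

theorem taskN3 : TaskN3 := by
  intro hA1 hA3 m G _ hm α U _ ε S1 hε hex
  have htot : ∀ (b : Fin m → ℕ) (s : Ch G), tot (stp G b s) = tot b + NE G := (hA3 m G hm).2.2.1
  have hw : ∀ b : Fin m → ℕ, (∀ i, 1 ≤ b i) → ∀ s, 0 ≤ w G α b s := fun b hb => (hA1 m G α b hb).1
  have hws : ∀ b : Fin m → ℕ, (∀ i, 1 ≤ b i) → ∑ s, w G α b s = 1 := fun b hb => (hA1 m G α b hb).2.1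
  have hstp : ∀ (b : Fin m → ℕ) (s : Ch G), (∀ i, 1 ≤ b i) → ∀ i, 1 ≤ stp G b s i := by
    intro b s hb i
    unfold stp
    have := hb i
    omega
  have hstot : ∀ (b : Fin m → ℕ) (s : Ch G), S1 ≤ tot b → S1 ≤ tot (stp G b s) := by
    intro b s hb
    rw [htot]
    have : (0 : ℝ) ≤ NE G := Nat.cast_nonneg _
    linarith
  -- recursion
  have hrec : ∀ (k : ℕ) (b : Fin m → ℕ), qq G α U (k + 1) b =
      if b ∈ U then ∑ s, w G α b s * qq G α U k (stp G b s) else 0 := by
    intro k b
    unfold qq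
    rw [Function.iterate_succ_apply']
    rfl
  have h01 : ∀ (k : ℕ) (b : Fin m → ℕ), (∀ i, 1 ≤ b i) → 0 ≤ qq G α U k b ∧ qq G α U k b ≤ 1 := by
    intro k
    induction k with
    | zero => intro b _; simp [qq]
    | succ k ih =>
      intro b hb
      rw [hrec]
      split_ifs with h
      · constructor
        · exact Finset.sum_nonneg fun s _ => mul_nonneg (hw b hb s) (ih _ (hstp b s hb)).1
        · calc ∑ s, w G α b s * qq G α U k (stp G b s) ≤ ∑ s, w G α b s * 1 :=
                Finset.sum_le_sum fun s _ =>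
                  mul_le_mul_of_nonneg_left (ih _ (hstp b s hb)).2 (hw b hb s)
            _ = 1 := by simp [hws b hb]
      · exact ⟨le_rfl, zero_le_one⟩
  have hanti : ∀ (k : ℕ) (b : Fin m → ℕ), (∀ i, 1 ≤ b i) →
      qq G α U (k + 1) b ≤ qq G α U k b := by
    intro k
    induction k with
    | zero =>
      intro b hb
      have := (h01 1 b hb).2
      simpa [qq] using this
    | succ k ih =>
      intro b hb
      rw [hrec (k + 1), hrec k]
      split_ifs with h
      · exact Finset.sum_le_sum fun s _ =>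
          mul_le_mul_of_nonneg_left (ih _ (hstp b s hb)) (hw b hb s)
      · exact le_rfl
  -- the limit
  let L : (Fin m → ℕ) → ℝ := fun b => ⨅ k, qq G α U k b
  have hlim : ∀ b : Fin m → ℕ, (∀ i, 1 ≤ b i) →
      Tendsto (fun k => qq G α U k b) atTop (𝓝 (L b)) := by
    intro b hb
    apply tendsto_atTop_ciInf (antitone_nat_of_succ_le fun k => hanti k b hb)
    exact ⟨0, by rintro _ ⟨k, rfl⟩; exact (h01 k b hb).1⟩
  have hL0 : ∀ b : Fin m → ℕ, (∀ i, 1 ≤ b i) → 0 ≤ L b := fun b hb =>
    ge_of_tendsto' (hlim b hb) fun k => (h01 k b hb).1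
  have hLrec : ∀ b : Fin m → ℕ, (∀ i, 1 ≤ b i) →
      L b = if b ∈ U then ∑ s, w G α b s * L (stp G b s) else 0 := by
    intro b hb
    have h1 : Tendsto (fun k => qq G α U (k + 1) b) atTop (𝓝 (L b)) :=
      (hlim b hb).comp (tendsto_add_atTop_nat 1)
    have h2 : Tendsto (fun k => qq G α U (k + 1) b) atTop
        (𝓝 (if b ∈ U then ∑ s, w G α b s * L (stp G b s) else 0)) := by
      have e : (fun k => qq G α U (k + 1) b) = fun k =>
          if b ∈ U then ∑ s, w G α b s * qq G α U k (stp G b s) else 0 := by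
        funext k; exact hrec k b
      rw [e]
      split_ifs with h
      · apply tendsto_finset_sum
        intro s _
        exact (hlim _ (hstp b s hb)).const_mul _
      · exact tendsto_const_nhds
    exact tendsto_nhds_unique h1 h2
  have hcmp : ∀ M : ℝ, (∀ b : Fin m → ℕ, (∀ i, 1 ≤ b i) → S1 ≤ tot b → L b ≤ M) →
      ∀ (k : ℕ) (b : Fin m → ℕ), (∀ i, 1 ≤ b i) → S1 ≤ tot b → L b ≤ M * qq G α U k b := by
    intro M hM k
    induction k with
    | zero => intro b hb hS; simpa [qq] using hM b hb hS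
    | succ k ih =>
      intro b hb hS
      rw [hLrec b hb, hrec]
      split_ifs with h
      · rw [Finset.mul_sum]
        apply Finset.sum_le_sum
        intro s _
        calc w G α b s * L (stp G b s) ≤ w G α b s * (M * qq G α U k (stp G b s)) :=
              mul_le_mul_of_nonneg_left (ih _ (hstp b s hb) (hstot b s hS)) (hw b hb s)
          _ = M * (w G α b s * qq G α U k (stp G b s)) := by ring
      · simp
  set δ : ℝ := min ε 1 with hδ
  have hδ0 : 0 < δ := lt_min hε one_pos
  have hδ1 : δ ≤ 1 := min_le_right _ _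
  have hδε : δ ≤ ε := min_le_left _ _
  have hpow : ∀ j : ℕ, ∀ b : Fin m → ℕ, (∀ i, 1 ≤ b i) → S1 ≤ tot b → L b ≤ (1 - δ) ^ j := by
    intro j
    induction j with
    | zero =>
      intro b hb _
      rw [pow_zero]
      exact le_of_tendsto' (hlim b hb) fun k => (h01 k b hb).2
    | succ j ih =>
      intro b hb hS
      obtain ⟨k, hk⟩ := hex b hb hS
      have h1 := hcmp _ ih k b hb hS
      have h2 : (0 : ℝ) ≤ (1 - δ) ^ j := pow_nonneg (by linarith) _
      calc L b ≤ (1 - δ) ^ j * qq G α U k b := h1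
        _ ≤ (1 - δ) ^ j * (1 - δ) := mul_le_mul_of_nonneg_left (by linarith) h2
        _ = (1 - δ) ^ (j + 1) := by rw [pow_succ]
  intro b hb hS
  have hLb : L b = 0 := by
    apply le_antisymm _ (hL0 b hb)
    have h1 : Tendsto (fun j : ℕ => (1 - δ) ^ j) atTop (𝓝 0) :=
      tendsto_pow_atTop_nhds_zero_of_lt_one (by linarith) (by linarith)
    exact ge_of_tendsto' h1 fun j => hpow j b hb hS
  have := hlim b hb
  rwa [hLb] at this

end Pool.Agent.H992R3.Urn
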